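import Pool.Agent.H61.UC.Final

/-!
Soficity and local approximation of unlabelled Cayley graphs (problem MP_1644eb_al): the
equivalence of Q1 whenever the group embeds into a discrete quotient of the automorphism group of
its unlabelled Cayley graph.
-/

namespace Pool.Agent.Results.MP_1644eb_al.DiscreteQuotient

open Pool.Agent.H61.UC

/-- Let `S` be a finite symmetric generating set of the group `Γ` with `1 ∉ S` and let `M` be a
normal subgroup of the automorphism group of the unlabelled Cayley graph `X = cay S` which contains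
every automorphism that fixes some ball `B(1, m)` pointwise, and which contains no nontrivial right
translation `x ↦ x * g`. Then the following are equivalent: `Γ` is sofic; the Dirac mass at
`(X, 1)` is a weak limit of laws of finite graphs; for some `c > 0` and every `r` there is a finite
graph in which a proportion of at least `c` of the vertices have an `r`-ball isomorphic to that of
`(X, 1)`; the group `Aut X / M` is sofic. -/
theorem result {Γ : Type} [Group Γ] (S : Finset Γ) (h1 : (1 : Γ) ∉ S) (hs : ∀ s ∈ S, s⁻¹ ∈ S)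
    (hgen : Subgroup.closure (S : Set Γ) = ⊤) (M : Subgroup (cay S ≃g cay S)) [M.Normal] (m : ℕ)
    (hm : ∀ a : cay S ≃g cay S, (∀ x ∈ ball (cay S) 1 m, a x = x) → a ∈ M)
    (hΓ : ∀ g : Γ, (∃ a ∈ M, ∀ x : Γ, a x = x * g) → g = 1) :
    List.TFAE [IsSofic Γ,
      ∃ (N : ℕ → ℕ) (G : (n : ℕ) → SimpleGraph (Fin (N n))), ConvergesTo N G (cay S) 1,
      ∃ c : ℝ, 0 < c ∧ ∀ r : ℕ, ∃ (N : ℕ) (G : SimpleGraph (Fin N)), 0 < N ∧
        c * N ≤ ({v | BallIso G v (cay S) 1 r}.ncard : ℝ),
      IsSofic ((cay S ≃g cay S) ⧸ M)] :=
  equivalence h1 hs hgen M m hm hΓ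

end Pool.Agent.Results.MP_1644eb_al.DiscreteQuotient
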